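import Mathlib
import Pool.Agent.H15.BDFP.Blocks

attribute [local instance] Pool.Agent.H33.BDFP.NV.instNACG Pool.Agent.H33.BDFP.NV.instModule
  Pool.Agent.H33.BDFP.NV.instNormedSpace Pool.Agent.H33.BDFP.NV.instFD
  Pool.Agent.H33.BDFP.NV.instComplete

/-!
Module AHIL of the project BDFP: the Hilbert level is trivial.
-/

open scoped ENNReal NNReal

noncomputable section

namespace Pool.Agent.H13.BDFP

open Pool.Agent.H33.BDFP Pool.Agent.H15.BDFP

variable {p : ℝ≥0∞} [Fact (1 ≤ p)] {r r' r'' N : ℕ → ℕ} {s s' s'' : ℕ → ℝ}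

/-- multiplication by `s` on the block `j` -/
def W (r N : ℕ → ℕ) (s : ℕ → ℝ) (j : ℕ) : BV r N j →ₗ[ℂ] BV r N j :=
  mulS (fun i : Fin (N (j + 1) - N j) => s (N j + (i : ℕ)))

lemma W_apply (j : ℕ) (x : BV r N j) (i : Fin (N (j + 1) - N j)) :
    W r N s j x i = (s (N j + (i : ℕ)) : ℂ) • x i := rfl

lemma W_inv (hs : ∀ n, 0 < s n) (j : ℕ) (x : BV r N j) :
    W r N s j (W r N (fun n => (s n)⁻¹) j x) = x := by
  funext i
  rw [W_apply, W_apply, smul_smul, ← Complex.ofReal_mul, mul_inv_cancel₀ (hs _).ne',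
    Complex.ofReal_one, one_smul]

lemma W_inv' (hs : ∀ n, 0 < s n) (j : ℕ) (x : BV r N j) :
    W r N (fun n => (s n)⁻¹) j (W r N s j x) = x := by
  funext i
  rw [W_apply, W_apply, smul_smul, ← Complex.ofReal_mul, inv_mul_cancel₀ (hs _).ne',
    Complex.ofReal_one, one_smul]

lemma lev_none' (hp : p ≠ ∞) (hs : ∀ n, 0 < s n) (j : ℕ) (x : BV r N j) :
    (lev p r N s hs none j).s x = ‖toZ r N 2 j (W r N s j x)‖ := lev_none p hp s hs j x

/-- the entries of `T` in the Hilbert level -/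
def wEnt (N : ℕ → ℕ) (s s' : ℕ → ℝ) (T : ZP r 2 →L[ℂ] ZP r' 2) (i j : ℕ) :
    BV r N j →ₗ[ℂ] BV r' N i :=
  W r' N (fun n => (s' n)⁻¹) i ∘ₗ blkEnt N T i j ∘ₗ W r N s j

lemma wEnt_apply (T : ZP r 2 →L[ℂ] ZP r' 2) (i j : ℕ) (x : BV r N j) :
    wEnt N s s' T i j x =
      W r' N (fun n => (s' n)⁻¹) i (ofZ r' N 2 i (T (toZ r N 2 j (W r N s j x)))) := rfl

lemma wEnt_bound (hp : p ≠ ∞) (hs : ∀ n, 0 < s n) (hs' : ∀ n, 0 < s' n)
    (T : ZP r 2 →L[ℂ] ZP r' 2) (i j : ℕ) (x : BV r N j) :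
    (lev p r' N s' hs' none i).s (wEnt N s s' T i j x) ≤
      bN N T i j * (lev p r N s hs none j).s x := by
  rw [lev_none' hp, lev_none' hp]
  change ‖toZ r' N 2 i (W r' N s' i (W r' N (fun n => (s' n)⁻¹) i
    (blkEnt N T i j (W r N s j x))))‖ ≤ _
  rw [W_inv hs']
  exact norm_toZ_ofZ_le T i j _

lemma norm_trunc_apply_le (q : ℝ≥0∞) [Fact (1 ≤ q)] (S : Set ℕ) (x : ZP r q) :
    ‖trunc q S x‖ ≤ ‖x‖ := by
  have h : ‖(trunc q S : ZP r q →L[ℂ] ZP r q)‖ ≤ 1 := lp.norm_mapCLM_le q _ zero_le_one _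
  calc ‖trunc q S x‖ ≤ 1 * ‖x‖ := ContinuousLinearMap.le_of_opNorm_le _ h x
    _ = ‖x‖ := one_mul _

/-- the block `i` of `T`, in the Hilbert level -/
def Lm (hp : p ≠ ∞) (N : ℕ → ℕ) (s' : ℕ → ℝ) (hs' : ∀ n, 0 < s' n)
    (T : ZP r 2 →L[ℂ] ZP r' 2) (i : ℕ) :
    ZP r 2 →L[ℂ] NV (BV r' N i) (lev p r' N s' hs' none i) :=
  LinearMap.mkContinuous ((NV.of (lev p r' N s' hs' none i)).toLinearMap ∘ₗ
    W r' N (fun n => (s' n)⁻¹) i ∘ₗ ofZ r' N 2 i ∘ₗ T.toLinearMap) ‖T‖ (by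
    intro x
    change ‖NV.of (lev p r' N s' hs' none i)
      (W r' N (fun n => (s' n)⁻¹) i (ofZ r' N 2 i (T x)))‖ ≤ _
    rw [NV.norm_of, lev_none' hp, W_inv hs', toZ_ofZ]
    exact (norm_trunc_apply_le _ _ _).trans (T.le_opNorm x))

lemma Lm_apply (hp : p ≠ ∞) (hs' : ∀ n, 0 < s' n) (T : ZP r 2 →L[ℂ] ZP r' 2) (i : ℕ)
    (x : ZP r 2) : Lm (p := p) hp N s' hs' T i x =
      NV.of _ (W r' N (fun n => (s' n)⁻¹) i (ofZ r' N 2 i (T x))) := rfl

/-- `T'` on the Hilbert levels is given by `T` -/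
def Lift {hs : ∀ n, 0 < s n} {hs' : ∀ n, 0 < s' n}
    (T' : ZL p r N s hs none →L[ℂ] ZL p r' N s' hs' none) (T : ZP r 2 →L[ℂ] ZP r' 2) : Prop :=
  IsMat T' (fun i j => NV.map (lev p r N s hs none j) (lev p r' N s' hs' none i)
    (wEnt N s s' T i j))

lemma lift_comp (hp : p ≠ ∞) (hN : StrictMono N) (h0 : N 0 = 0) {hs : ∀ n, 0 < s n}
    {hs' : ∀ n, 0 < s' n} {hs'' : ∀ n, 0 < s'' n}
    {S' : ZL p r N s hs none →L[ℂ] ZL p r' N s' hs' none}
    {T' : ZL p r' N s' hs' none →L[ℂ] ZL p r'' N s'' hs'' none}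
    {S : ZP r 2 →L[ℂ] ZP r' 2} {T : ZP r' 2 →L[ℂ] ZP r'' 2} (hS : Lift S' S) (hT : Lift T' T) :
    Lift (T' ∘L S') (T ∘L S) := by
  intro j x i
  set w := S' (lp.single p j x) with hw
  have h1 : HasSum (fun k => T' (lp.single p k (w k)) i) (T' w i) := by
    have h2 := (lp.hasSum_single hp w).map T' T'.continuous
    exact h2.map (lp.evalCLM ℂ (fun j => NV (BV r'' N j) (lev p r'' N s'' hs'' none j)) p i)
      (ContinuousLinearMap.continuous _)
  have h3 : HasSum (fun k => Lm (p := p) hp N s'' hs'' T i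
      (toZ r' N 2 k (ofZ r' N 2 k (S (toZ r N 2 j (W r N s j x))))))
      (Lm (p := p) hp N s'' hs'' T i (S (toZ r N 2 j (W r N s j x)))) :=
    (hasSum_blocks (by norm_num) hN h0 _).map _ (ContinuousLinearMap.continuous _)
  change T' w i = _
  refine h1.unique ?_
  refine Eq.mp ?_ h3
  congr 1
  funext k
  rw [hT k (w k) i, hw, hS j x k]
  change _ = NV.of (lev p r'' N s'' hs'' none i) (W r'' N (fun n => (s'' n)⁻¹) i
    (ofZ r'' N 2 i (T (toZ r' N 2 k (W r' N s' k (W r' N (fun n => (s' n)⁻¹) k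
      (ofZ r' N 2 k (S (toZ r N 2 j (W r N s j x))))))))))
  rw [W_inv hs']
  rfl

lemma exists_lift (hSch : SchStmt) (hp : p ≠ ∞) (hs : ∀ n, 0 < s n) (hs' : ∀ n, 0 < s' n)
    (T : ZP r 2 →L[ℂ] ZP r' 2) (hT : Cut1 N T) :
    ∃ T' : ZL p r N s hs none →L[ℂ] ZL p r' N s' hs' none, Lift T' T := by
  obtain ⟨⟨C, hr, hc⟩, -⟩ := hT
  have hC : 0 ≤ C := (tsum_nonneg fun j => bN_nonneg T 0 j).trans (hr 0).2
  obtain ⟨T', hT', -⟩ := (hSch p hp ℕ ℕ (fun j => NV (BV r N j) (lev p r N s hs none j))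
    (fun j => NV (BV r' N j) (lev p r' N s' hs' none j))
    (fun i j => NV.map (lev p r N s hs none j) (lev p r' N s' hs' none i)
      (wEnt N s s' T i j))).1 (bN N T) C hC (fun i j => bN_nonneg T i j)
    (fun i j x => wEnt_bound hp hs hs' T i j x) hr hc
  exact ⟨T', hT'⟩

lemma lift_unique (hSch : SchStmt) (hp : p ≠ ∞) {hs : ∀ n, 0 < s n} {hs' : ∀ n, 0 < s' n}
    {T' T'' : ZL p r N s hs none →L[ℂ] ZL p r' N s' hs' none}
    {T : ZP r 2 →L[ℂ] ZP r' 2} (h' : Lift T' T) (h'' : Lift T'' T) : T' = T'' :=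
  (hSch p hp ℕ ℕ (fun j => NV (BV r N j) (lev p r N s hs none j))
    (fun j => NV (BV r' N j) (lev p r' N s' hs' none j))
    (fun i j => NV.map (lev p r N s hs none j) (lev p r' N s' hs' none i)
      (wEnt N s s' T i j))).2.1 T' T'' h' h''

lemma lift_compact (hSch : SchStmt) (hp : p ≠ ∞) {hs : ∀ n, 0 < s n} {hs' : ∀ n, 0 < s' n}
    {T' : ZL p r N s hs none →L[ℂ] ZL p r' N s' hs' none}
    {T : ZP r 2 →L[ℂ] ZP r' 2} (hT : Lift T' T) (h1 : Cut1 N T) (h2 : Cut2 N T) :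
    IsCompactOperator (⇑T') := by
  refine (hSch p hp ℕ ℕ (fun j => NV (BV r N j) (lev p r N s hs none j))
    (fun j => NV (BV r' N j) (lev p r' N s' hs' none j))
    (fun i j => NV.map (lev p r N s hs none j) (lev p r' N s' hs' none i)
      (wEnt N s s' T i j))).2.2 T' hT ?_
  intro ε hε
  obtain ⟨j₀, hr₀, hc₀⟩ := h2 ε hε
  obtain ⟨⟨C, hr, hc⟩, -⟩ := h1
  -- tails of the rows
  have h3 : ∀ i, ∃ J : ℕ, ∀ J', J ≤ J' → ∑' j, (if j < J' then 0 else bN N T i j) ≤ ε := by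
    intro i
    have h4 := (hr i).1.tendsto_sum_tsum_nat
    obtain ⟨J, hJ⟩ := (Metric.tendsto_atTop.1 h4) ε hε
    refine ⟨J, fun J' hJ' => ?_⟩
    have h5 := hJ J' hJ'
    rw [Real.dist_eq] at h5
    have h6 : ∑' j, (if j < J' then 0 else bN N T i j) =
        ∑' j, bN N T i j - ∑ j ∈ Finset.range J', bN N T i j := by
      rw [← (hr i).1.sum_add_tsum_nat_add J', add_sub_cancel_left]
      have h7 : Summable (fun j => if j < J' then 0 else bN N T i j) :=
        Summable.of_nonneg_of_le (fun j => by split_ifs; exacts [le_rfl, bN_nonneg T i j])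
          (fun j => by split_ifs; exacts [bN_nonneg T i j, le_rfl]) (hr i).1
      rw [← h7.sum_add_tsum_nat_add J', Finset.sum_eq_zero, zero_add]
      · refine tsum_congr fun j => ?_
        rw [if_neg (by omega)]
      · intro j hj
        rw [if_pos (Finset.mem_range.1 hj)]
    rw [h6]
    rw [abs_sub_comm] at h5
    exact (le_abs_self _).trans h5.le
  choose J hJ using h3
  set J₁ := max j₀ ((Finset.range j₀).sup J) with hJ₁
  refine ⟨Finset.range J₁, fun i j => if j < J₁ then 0 else bN N T i j, ?_, ?_, ?_, ?_⟩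
  · intro i j
    change 0 ≤ (if j < J₁ then 0 else bN N T i j)
    split_ifs
    exacts [le_rfl, bN_nonneg T i j]
  · intro i j hj x
    change _ ≤ (if j < J₁ then 0 else bN N T i j) * ‖x‖
    rw [if_neg (fun h => hj (Finset.mem_range.2 h))]
    exact wEnt_bound hp hs hs' T i j x
  · intro i
    have h7 : Summable (fun j => if j < J₁ then 0 else bN N T i j) :=
      Summable.of_nonneg_of_le (fun j => by split_ifs; exacts [le_rfl, bN_nonneg T i j])
        (fun j => by split_ifs; exacts [bN_nonneg T i j, le_rfl]) (hr i).1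
    refine ⟨h7, ?_⟩
    rcases lt_or_ge i j₀ with h | h
    · refine hJ i J₁ ?_
      exact (Finset.le_sup (f := J) (Finset.mem_range.2 h)).trans (le_max_right _ _)
    · refine (h7.tsum_le_tsum (fun j => ?_) (hr i).1).trans (hr₀ i h)
      split_ifs
      exacts [bN_nonneg T i j, le_rfl]
  · intro j
    by_cases h : j < J₁
    · simp only [h, if_true]
      exact ⟨summable_zero, by rw [tsum_zero]; exact hε.le⟩
    · simp only [h, if_false]
      exact ⟨(hc j).1, hc₀ j ((le_max_left _ _).trans (not_lt.1 h))⟩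

section

variable {M : Set ℂ} [CompactSpace M]

lemma W_tau (v : ∀ n, Fin (r n) → M) (j : ℕ) (a : C(M, ℂ)) (x : BV r N j) :
    W r N s j (tauB N v j a x) = tauB N v j a (W r N s j x) := by
  funext i
  rw [W_apply, tauB_apply, tauB_apply, W_apply, map_smul]

lemma toZ_tau (v : ∀ n, Fin (r n) → M) (j : ℕ) (a : C(M, ℂ)) (x : BV r N j) :
    toZ r N 2 j (tauB N v j a x) = (diagRep v 2).hom a (toZ r N 2 j x) := by
  refine lp.ext (funext fun n => ?_)
  change _ = (eucRep (v n)).hom a (toZ r N 2 j x n)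
  by_cases hn : n ∈ blk N j
  · obtain ⟨i, rfl⟩ := mem_blk_iff.1 hn
    rw [toZ_apply_add, toZ_apply_add]
    rfl
  · rw [toZ_apply_of_notMem _ hn, toZ_apply_of_notMem _ hn, map_zero]

lemma ofZ_tau (v : ∀ n, Fin (r n) → M) (j : ℕ) (a : C(M, ℂ)) (z : ZP r 2) :
    ofZ r N 2 j ((diagRep v 2).hom a z) = tauB N v j a (ofZ r N 2 j z) := rfl

lemma wEnt_comm (v : ∀ n, Fin (r n) → M) (v' : ∀ n, Fin (r' n) → M) (T : ZP r 2 →L[ℂ] ZP r' 2)
    (a : C(M, ℂ)) (i j : ℕ) (x : BV r N j) :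
    wEnt N s s' T i j (tauB N v j a x) - tauB N v' i a (wEnt N s s' T i j x) =
      wEnt N s s' (T ∘L (diagRep v 2).hom a - (diagRep v' 2).hom a ∘L T) i j x := by
  rw [wEnt_apply, wEnt_apply, wEnt_apply, W_tau, toZ_tau, ← W_tau, ← ofZ_tau, ← map_sub,
    ← map_sub]
  rfl

lemma lift_comm (hp : p ≠ ∞) {hs : ∀ n, 0 < s n} {hs' : ∀ n, 0 < s' n}
    (v : ∀ n, Fin (r n) → M) (v' : ∀ n, Fin (r' n) → M)
    {T' : ZL p r N s hs none →L[ℂ] ZL p r' N s' hs' none}
    {T : ZP r 2 →L[ℂ] ZP r' 2} (hT : Lift T' T) (a : C(M, ℂ)) :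
    Lift (T' ∘L (repL p hp r N s hs v none).hom a - (repL p hp r' N s' hs' v' none).hom a ∘L T')
      (T ∘L (diagRep v 2).hom a - (diagRep v' 2).hom a ∘L T) := by
  intro j x i
  have h1 : (repL p hp r N s hs v none).hom a (lp.single p j x) =
      (lp.single p j (NV.of (lev p r N s hs none j) (tauB N v j a x)) :
        ZL p r N s hs none) := by
    refine lp.ext (funext fun k => ?_)
    by_cases hk : k = j
    · subst hk
      rw [lp.single_apply_self]
      change NV.of (lev p r N s hs none k) (tauB N v k a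
        ((lp.single p k x : ZL p r N s hs none) k)) = _
      rw [lp.single_apply_self]
    · rw [lp.single_apply_ne p j _ hk]
      change NV.of (lev p r N s hs none k) (tauB N v k a
        ((lp.single p j x : ZL p r N s hs none) k)) = _
      rw [lp.single_apply_ne p j _ hk]
      exact map_zero (tauB N v k a)
  have h2 : (T' ∘L (repL p hp r N s hs v none).hom a -
      (repL p hp r' N s' hs' v' none).hom a ∘L T') (lp.single p j x) i =
      T' ((repL p hp r N s hs v none).hom a (lp.single p j x)) i -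
      NV.of (lev p r' N s' hs' none i) (tauB N v' i a (T' (lp.single p j x) i)) := rfl
  rw [h2, h1, hT j _ i, hT j x i]
  change NV.of (lev p r' N s' hs' none i) (wEnt N s s' T i j (tauB N v j a x) -
    tauB N v' i a (wEnt N s s' T i j x)) = NV.of (lev p r' N s' hs' none i)
    (wEnt N s s' (T ∘L (diagRep v 2).hom a - (diagRep v' 2).hom a ∘L T) i j x)
  exact congrArg (NV.of (lev p r' N s' hs' none i)) (wEnt_comm v v' T a i j x)

end

lemma wEnt_blk (hs : ∀ n, 0 < s n) {D : ZP r p →L[ℂ] ZP r 2} (hD : IsDiag s D)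
    {e : ZP r p →L[ℂ] ZP r p} {e₂ : ZP r 2 →L[ℂ] ZP r 2} (heD : e₂ ∘L D = D ∘L e)
    (i j : ℕ) (x : BV r N j) : blkEnt N e i j x = wEnt N s s e₂ i j x := by
  rw [wEnt_apply]
  have h2 : toZ r N 2 j (W r N s j x) = D (toZ r N p j x) := (toZ_mulS hD j x).symm
  have h3 : e₂ (D (toZ r N p j x)) = D (e (toZ r N p j x)) :=
    congrArg (fun T : ZP r p →L[ℂ] ZP r 2 => T (toZ r N p j x)) heD
  rw [h2, h3]
  have h4 : ofZ r N 2 i (D (e (toZ r N p j x))) = W r N s i (ofZ r N p i (e (toZ r N p j x))) :=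
    funext fun k => hD.2 _ _
  rw [h4, W_inv' hs]
  rfl

lemma wEnt_id (i j : ℕ) (x : BV r N j) :
    wEnt N (fun _ => 1) (fun _ => 1) (ContinuousLinearMap.id ℂ (ZP r 2)) i j x =
      ofZ r N 2 i (toZ r N 2 j x) := by
  have h3 : ∀ (c : ℝ) (_ : c = 1) k (y : BV r N k), W r N (fun _ => c) k y = y := by
    intro c hc k y
    funext l
    rw [W_apply, hc, Complex.ofReal_one, one_smul]
  rw [wEnt_apply]
  change W r N (fun _ => ((1 : ℝ))⁻¹) i
    (ofZ r N 2 i (toZ r N 2 j (W r N (fun _ => 1) j x))) = _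
  rw [h3 _ inv_one, h3 _ rfl]

lemma ofZ_toZ_ne' (hN : StrictMono N) {i j : ℕ} (h : i ≠ j) (x : BV r N j) :
    ofZ r N 2 i (toZ r N 2 j x) = 0 := by
  funext l
  change toZ r N 2 j x (N i + l) = 0
  refine toZ_apply_of_notMem x ?_
  intro h5
  exact h (blk_unique hN (add_mem_blk l) h5)

/-- Module AHIL. -/
theorem ahil (hSch : SchStmt) : AHilStmt := by
  intro p _ _ hp M _ r r' N s hs v v' D e e₂ A B hD hN h0 heD hAB hBA hA hB hcut ei hei
  have h1 : ∀ n : ℕ, (0 : ℝ) < (fun _ => 1 : ℕ → ℝ) n := fun _ => one_pos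
  obtain ⟨A', hA'⟩ := exists_lift (p := p) hSch hp hs h1 A hA
  obtain ⟨B', hB'⟩ := exists_lift (p := p) hSch hp h1 hs B hB
  have hei' : Lift ei e₂ := by
    intro j x i
    rw [hei j x i]
    exact congrArg (NV.of (lev p r N s hs none i)) (wEnt_blk hs hD heD i j x)
  have hBA' : B' ∘L A' = ei := by
    have h2 := lift_comp hp hN h0 hA' hB'
    rw [hBA] at h2
    exact lift_unique hSch hp h2 hei'
  have hAB' : A' ∘L B' = ContinuousLinearMap.id ℂ _ := by
    have h2 := lift_comp hp hN h0 hB' hA'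
    rw [hAB] at h2
    refine lift_unique hSch hp h2 ?_
    intro j x i
    have h5 := congrArg (NV.of (lev p r' N (fun _ => 1) h1 none i)) (wEnt_id i j x)
    refine Eq.trans ?_ h5.symm
    change (lp.single p j x : ZL p r' N (fun _ => 1) h1 none) i = _
    by_cases hk : i = j
    · subst hk
      refine (lp.single_apply_self (E := fun j => NV (BV r' N j)
        (lev p r' N (fun _ => 1) h1 none j)) p i x).trans ?_
      exact congrArg (NV.of (lev p r' N (fun _ => 1) h1 none i)) (ofZ_toZ i x).symm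
    · refine (lp.single_apply_ne (E := fun j => NV (BV r' N j)
        (lev p r' N (fun _ => 1) h1 none j)) p j x hk).trans ?_
      exact congrArg (NV.of (lev p r' N (fun _ => 1) h1 none i)) (ofZ_toZ_ne' hN hk x).symm
  have h0c : ∀ {X Y : Type} [NormedAddCommGroup X] [NormedSpace ℂ X] [NormedAddCommGroup Y]
      [NormedSpace ℂ Y] {S T : X →L[ℂ] Y}, S = T → EqK S T := by
    intro X Y _ _ _ _ S T h
    unfold EqK
    rw [h, sub_self]
    exact isCompactOperator_zero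
  refine ⟨A', B', h0c hBA', h0c hAB', h0c ?_, h0c ?_, ?_⟩
  · rw [← hBA', ← ContinuousLinearMap.comp_assoc, hAB', ContinuousLinearMap.id_comp]
  · rw [ContinuousLinearMap.comp_id]
  · intro a
    exact lift_compact hSch hp (lift_comm hp v v' hA' a) (hcut a).1 (hcut a).2

end Pool.Agent.H13.BDFP
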