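import Mathlib
import Pool.Agent.H33.BDFP.Stmts

attribute [local instance] Pool.Agent.H33.BDFP.NV.instNACG Pool.Agent.H33.BDFP.NV.instModule
  Pool.Agent.H33.BDFP.NV.instNormedSpace Pool.Agent.H33.BDFP.NV.instFD
  Pool.Agent.H33.BDFP.NV.instComplete

/-!
Module AP of project BDFP: approximation of compact operators by finite rank operators.
-/

open scoped ENNReal NNReal

noncomputable section

namespace Pool.Agent.H13.BDFP

open Pool.Agent.H33.BDFP

lemma ap_of_proj {Y : Type} [NormedAddCommGroup Y] [NormedSpace ℂ Y]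
    (h : ∀ (S : Finset Y) (ε : ℝ), 0 < ε → ∃ P : Y →L[ℂ] Y,
      FiniteDimensional ℂ (LinearMap.range P.toLinearMap) ∧ ‖P‖ ≤ 1 ∧
        ∀ y ∈ S, ‖y - P y‖ ≤ ε) : AP Y := by
  classical
  intro X _ _ C hC ε hε
  have hK := hC.isCompact_closure_image_closedBall (f := C.toLinearMap) 1
  have hT := hK.totallyBounded
  rw [Metric.totallyBounded_iff] at hT
  obtain ⟨t, htf, ht⟩ := hT (ε / 4) (by positivity)
  obtain ⟨P, hPf, hP1, hP⟩ := h htf.toFinset (ε / 4) (by positivity)
  refine ⟨P ∘L C, ?_, ?_⟩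
  · have := hPf
    refine Submodule.finiteDimensional_of_le (S₂ := LinearMap.range P.toLinearMap) ?_
    rintro _ ⟨x, rfl⟩
    exact ⟨C x, rfl⟩
  · refine ContinuousLinearMap.opNorm_le_of_unit_norm (𝕜 := ℂ) ?_ ?_
    · exact hε.le
    intro x hx
    have hmem : C x ∈ closure (⇑C.toLinearMap '' Metric.closedBall 0 1) :=
      subset_closure ⟨x, by simp [hx], rfl⟩
    obtain ⟨y, hy, hxy⟩ := Set.mem_iUnion₂.1 (ht hmem)
    have h1 : ‖C x - y‖ ≤ ε / 4 := by
      rw [← dist_eq_norm]; exact (Metric.mem_ball.1 hxy).le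
    have h2 : ‖y - P y‖ ≤ ε / 4 := hP y (by simpa using hy)
    have h3 : ‖P (y - C x)‖ ≤ ε / 4 := by
      refine (P.le_opNorm _).trans ?_
      rw [norm_sub_rev] at h1
      calc ‖P‖ * ‖y - C x‖ ≤ 1 * (ε / 4) :=
            mul_le_mul hP1 h1 (norm_nonneg _) zero_le_one
        _ = ε / 4 := one_mul _
    have : (C - P ∘L C) x = (C x - y) + (y - P y) + P (y - C x) := by
      simp only [sub_apply, ContinuousLinearMap.comp_apply, map_sub]
      abel
    rw [this]
    refine (norm_add_le _ _).trans ?_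
    refine (add_le_add (norm_add_le _ _) le_rfl).trans ?_
    linarith

lemma ap_lp (p : ℝ≥0∞) [Fact (1 ≤ p)] (hp : p ≠ ∞) (E : ℕ → Type)
    [∀ n, NormedAddCommGroup (E n)] [∀ n, NormedSpace ℂ (E n)]
    [∀ n, FiniteDimensional ℂ (E n)] : AP (lp E p) := by
  classical
  refine ap_of_proj fun S ε hε => ?_
  have key : ∀ (n : ℕ) (y : lp E p),
      trunc p {i | i < n} y = ∑ i ∈ Finset.range n, lp.single p i (y i) := by
    intro n y
    refine lp.ext (funext fun j => ?_)
    have h1 : (trunc p {i | i < n} y) j = if j < n then y j else 0 := by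
      by_cases hj : j < n
      · simp [trunc, hj]
      · simp [trunc, hj]
    rw [h1, lp.coeFn_sum, Finset.sum_apply]
    by_cases hj : j < n
    · rw [if_pos hj, Finset.sum_eq_single j]
      · exact (lp.single_apply_self p j (y j)).symm
      · intro b _ hb
        exact lp.single_apply_ne p b (y b) hb.symm
      · intro hj'
        exact absurd (Finset.mem_range.2 hj) hj'
    · rw [if_neg hj, Finset.sum_eq_zero]
      intro i hi
      refine lp.single_apply_ne p i (y i) ?_
      rintro rfl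
      exact hj (Finset.mem_range.1 hi)
  have htend : ∀ y : lp E p, Filter.Tendsto (fun n => trunc p {i | i < n} y) Filter.atTop
      (nhds y) := by
    intro y
    have := (lp.hasSum_single hp y).tendsto_sum_nat
    refine this.congr fun n => (key n y).symm
  have hev : ∀ᶠ n in Filter.atTop, ∀ y ∈ S, ‖y - trunc p {i | i < n} y‖ ≤ ε := by
    rw [Filter.eventually_all_finset]
    intro y _
    have := (Metric.tendsto_nhds.1 (htend y)) ε hε
    filter_upwards [this] with n hn
    rw [dist_eq_norm, norm_sub_rev] at hn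
    exact hn.le
  obtain ⟨n, hn⟩ := hev.exists
  refine ⟨trunc p {i | i < n}, ?_, ?_, hn⟩
  · let g : (∀ i : Fin n, E i) →ₗ[ℂ] lp E p :=
      ∑ i : Fin n, (lp.lsingle (𝕜 := ℂ) (E := E) p (i : ℕ)) ∘ₗ (LinearMap.proj i)
    have hle : LinearMap.range (trunc p {i | i < n} : lp E p →L[ℂ] lp E p).toLinearMap ≤
        LinearMap.range g := by
      rintro _ ⟨y, rfl⟩
      refine ⟨fun i => y i, ?_⟩
      change g (fun i : Fin n => y i) = trunc p {i | i < n} y
      rw [key, Finset.sum_range]
      simp [g, LinearMap.sum_apply]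
    exact Submodule.finiteDimensional_of_le hle
  · unfold trunc
    exact lp.norm_mapCLM_le p _ zero_le_one _

lemma ap_hilbert (H : Type) [NormedAddCommGroup H] [InnerProductSpace ℂ H] [CompleteSpace H] :
    AP H := by
  classical
  refine ap_of_proj fun S ε hε => ?_
  let W : Submodule ℂ H := Submodule.span ℂ (S : Set H)
  have : FiniteDimensional ℂ W := FiniteDimensional.span_finset ℂ S
  refine ⟨W.starProjection, ?_, ?_, ?_⟩
  · refine Submodule.finiteDimensional_of_le (S₂ := W) ?_
    rintro _ ⟨x, rfl⟩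
    exact W.starProjection_apply_mem x
  · exact W.starProjection_norm_le
  · intro y hy
    have : W.starProjection y = y :=
      Submodule.starProjection_eq_self_iff.2 (Submodule.subset_span hy)
    rw [this, sub_self, norm_zero]
    exact hε.le

lemma ap_prod (X Y : Type) [NormedAddCommGroup X] [NormedSpace ℂ X] [NormedAddCommGroup Y]
    [NormedSpace ℂ Y] (hX : AP X) (hY : AP Y) : AP (X × Y) := by
  intro Z _ _ C hC ε hε
  obtain ⟨F, hF, hF'⟩ := hX Z (ContinuousLinearMap.fst ℂ X Y ∘L C)
    (hC.clm_comp (ContinuousLinearMap.fst ℂ X Y)) ε hε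
  obtain ⟨G, hG, hG'⟩ := hY Z (ContinuousLinearMap.snd ℂ X Y ∘L C)
    (hC.clm_comp (ContinuousLinearMap.snd ℂ X Y)) ε hε
  refine ⟨F.prod G, ?_, ?_⟩
  · have := hF
    have := hG
    have hle : LinearMap.range (F.prod G).toLinearMap ≤
        (LinearMap.range F.toLinearMap).prod (LinearMap.range G.toLinearMap) := by
      rintro _ ⟨x, rfl⟩
      exact ⟨⟨x, rfl⟩, ⟨x, rfl⟩⟩
    have : FiniteDimensional ℂ
        ((LinearMap.range F.toLinearMap).prod (LinearMap.range G.toLinearMap)) :=
      Submodule.fg_iff_finiteDimensional _ |>.1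
        (Submodule.FG.prod (Submodule.fg_iff_finiteDimensional _ |>.2 hF)
          (Submodule.fg_iff_finiteDimensional _ |>.2 hG))
    exact Submodule.finiteDimensional_of_le hle
  · refine ContinuousLinearMap.opNorm_le_bound _ hε.le fun x => ?_
    have h1 := (ContinuousLinearMap.fst ℂ X Y ∘L C - F).le_of_opNorm_le hF' x
    have h2 := (ContinuousLinearMap.snd ℂ X Y ∘L C - G).le_of_opNorm_le hG' x
    exact max_le h1 h2

theorem ap : APStmt :=
  ⟨fun p _ hp E _ _ _ => ap_lp p hp E, fun H _ _ _ => ap_hilbert H,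
    fun X Y _ _ _ _ hX hY => ap_prod X Y hX hY⟩

end Pool.Agent.H13.BDFP
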