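import Mathlib
import Pool.Agent.H15.BDFP.Blocks

attribute [local instance] Pool.Agent.H33.BDFP.NV.instNACG Pool.Agent.H33.BDFP.NV.instModule
  Pool.Agent.H33.BDFP.NV.instNormedSpace Pool.Agent.H33.BDFP.NV.instFD
  Pool.Agent.H33.BDFP.NV.instComplete

/-!
Module AREG of the project BDFP: the level zero is the space `ZP r p` itself.
-/

open scoped ENNReal NNReal

noncomputable section

namespace Pool.Agent.H13.BDFP

open Pool.Agent.H33.BDFP Pool.Agent.H15.BDFP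

variable {p : ℝ≥0∞} [Fact (1 ≤ p)] {r N : ℕ → ℕ} {s : ℕ → ℝ} {hs : ∀ n, 0 < s n}

/-- the level zero norm is the norm of `ZP r p` -/
lemma lev_zero_s (hp : p ≠ ∞) {D : ZP r p →L[ℂ] ZP r 2} (hD : IsDiag s D) (hD1 : ‖D‖ ≤ 1)
    (j : ℕ) (x : BV r N j) :
    (lev p r N s hs (some 0) j).s x = ‖toZ r N p j x‖ := by
  rw [lev_s p hp s hs]
  have h1 : lc (some 0) = 1 := pow_zero _
  rw [h1, one_mul, ← toZ_mulS hD]
  refine max_eq_left ?_
  calc ‖D (toZ r N p j x)‖ ≤ ‖D‖ * ‖toZ r N p j x‖ := D.le_opNorm _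
    _ ≤ 1 * ‖toZ r N p j x‖ := mul_le_mul_of_nonneg_right hD1 (norm_nonneg _)
    _ = _ := one_mul _

lemma ofZ_toZ_ne (hN : StrictMono N) {j k : ℕ} (h : k ≠ j) (x : BV r N j) :
    ofZ r N p k (toZ r N p j x) = 0 := by
  funext i
  change toZ r N p j x (N k + i) = 0
  refine toZ_apply_of_notMem x ?_
  intro h1
  exact h (blk_unique hN (add_mem_blk i) h1)

lemma toReal_pos (p : ℝ≥0∞) [Fact (1 ≤ p)] (hp : p ≠ ∞) : 0 < p.toReal :=
  ENNReal.toReal_pos (zero_lt_one.trans_le (Fact.out : (1 : ℝ≥0∞) ≤ p)).ne' hp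

lemma hasSum_blk_norm (hp : p ≠ ∞) (hN : StrictMono N) (h0 : N 0 = 0) (z : ZP r p) :
    HasSum (fun j => ‖toZ r N p j (ofZ r N p j z)‖ ^ p.toReal) (‖z‖ ^ p.toReal) := by
  have h1 : HasSum (fun n => ‖z n‖ ^ p.toReal) (‖z‖ ^ p.toReal) :=
    lp.hasSum_norm (toReal_pos p hp) z
  have h2 := (Equiv.ofBijective _ (blkMap_bijective hN h0)).hasSum_iff.2 h1
  have h3 := h2.sigma (fun j => hasSum_fintype _)
  convert! h3 using 1
  funext j
  rw [norm_toZ_rpow hp]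
  rfl

lemma mem_psi0 (hp : p ≠ ∞) (hs : ∀ n, 0 < s n) {D : ZP r p →L[ℂ] ZP r 2} (hD : IsDiag s D)
    (hD1 : ‖D‖ ≤ 1) (hN : StrictMono N) (h0 : N 0 = 0) (z : ZP r p) :
    Memℓp (fun j => NV.of (lev p r N s hs (some 0) j) (ofZ r N p j z)) p :=
  memℓp_gen (by
    have h := (hasSum_blk_norm hp hN h0 z).summable
    refine h.congr fun j => ?_
    rw [NV.norm_of, lev_zero_s hp hD hD1])

/-- the isometry of `ZP r p` onto the level zero, as a linear map -/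
def psi0L (hp : p ≠ ∞) (hs : ∀ n, 0 < s n) {D : ZP r p →L[ℂ] ZP r 2} (hD : IsDiag s D)
    (hD1 : ‖D‖ ≤ 1) (hN : StrictMono N) (h0 : N 0 = 0) :
    ZP r p →ₗ[ℂ] ZL p r N s hs (some 0) where
  toFun z := ⟨fun j => NV.of _ (ofZ r N p j z), mem_psi0 hp hs hD hD1 hN h0 z⟩
  map_add' _ _ := rfl
  map_smul' _ _ := rfl

/-- the isometry of `ZP r p` onto the level zero -/
def psi0 (hp : p ≠ ∞) (hs : ∀ n, 0 < s n) {D : ZP r p →L[ℂ] ZP r 2} (hD : IsDiag s D)
    (hD1 : ‖D‖ ≤ 1) (hN : StrictMono N) (h0 : N 0 = 0) :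
    ZP r p →ₗᵢ[ℂ] ZL p r N s hs (some 0) where
  toLinearMap := psi0L hp hs hD hD1 hN h0
  norm_map' z := by
    have hP := toReal_pos p hp
    have h2 := lp.hasSum_norm hP (psi0L hp hs hD hD1 hN h0 z)
    have h3 : ∀ j, ‖psi0L hp hs hD hD1 hN h0 z j‖ ^ p.toReal =
        ‖toZ r N p j (ofZ r N p j z)‖ ^ p.toReal := fun j => by
      rw [← lev_zero_s (hs := hs) hp hD hD1]
      rfl
    have h4 : HasSum (fun j => ‖toZ r N p j (ofZ r N p j z)‖ ^ p.toReal)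
        (‖psi0L hp hs hD hD1 hN h0 z‖ ^ p.toReal) := by
      rw [← funext h3]
      exact h2
    exact (Real.rpow_left_inj (norm_nonneg _) (norm_nonneg _) hP.ne').1
      (h4.unique (hasSum_blk_norm hp hN h0 z))

section

variable (hp : p ≠ ∞) (hs : ∀ n, 0 < s n) {D : ZP r p →L[ℂ] ZP r 2} (hD : IsDiag s D)
    (hD1 : ‖D‖ ≤ 1) (hN : StrictMono N) (h0 : N 0 = 0)

lemma psi0_apply (z : ZP r p) (j : ℕ) :
    psi0 hp hs hD hD1 hN h0 z j = NV.of _ (ofZ r N p j z) := rfl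

lemma psi0_toZ (j : ℕ) (x : BV r N j) :
    psi0 hp hs hD hD1 hN h0 (toZ r N p j x) =
      (lp.single p j (NV.of (lev p r N s hs (some 0) j) x) : ZL p r N s hs (some 0)) := by
  refine lp.ext (funext fun k => ?_)
  rw [psi0_apply]
  by_cases hk : k = j
  · subst hk
    rw [ofZ_toZ]
    exact (lp.single_apply_self (E := fun j => NV (BV r N j) (lev p r N s hs (some 0) j)) p k
      _).symm
  · rw [ofZ_toZ_ne hN hk, map_zero]
    exact (lp.single_apply_ne (E := fun j => NV (BV r N j) (lev p r N s hs (some 0) j)) p j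
      _ hk).symm

lemma psi0_surjective : Function.Surjective (psi0 hp hs hD hD1 hN h0) := by
  have hcl : IsClosed (Set.range (psi0 hp hs hD hD1 hN h0)) :=
    (psi0 hp hs hD hD1 hN h0).isometry.isClosedEmbedding.isClosed_range
  intro w
  have h1 : HasSum (fun j => lp.single p j (w j)) w := lp.hasSum_single hp w
  refine hcl.mem_of_tendsto h1 (Filter.Eventually.of_forall fun t => ?_)
  refine ⟨∑ j ∈ t, toZ r N p j ((NV.of (lev p r N s hs (some 0) j)).symm (w j)), ?_⟩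
  rw [map_sum]
  refine Finset.sum_congr rfl fun j _ => ?_
  rw [psi0_toZ, LinearEquiv.apply_symm_apply]

end

/-- Module AREG. -/
theorem areg : ARegStmt := by
  intro p _ _ hp M _ r N s hs v D hD hD1 hN h0
  let Ψ : ZP r p ≃ₗᵢ[ℂ] ZL p r N s hs (some 0) :=
    LinearIsometryEquiv.ofSurjective (psi0 hp hs hD hD1 hN h0) (psi0_surjective hp hs hD hD1 hN h0)
  have hΨ : ∀ j (x : BV r N j), Ψ (toZ r N p j x) =
      (lp.single p j (NV.of (lev p r N s hs (some 0) j) x) : ZL p r N s hs (some 0)) :=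
    fun j x => psi0_toZ hp hs hD hD1 hN h0 j x
  refine ⟨Ψ.symm.toContinuousLinearEquiv, ?_, ?_, ?_⟩
  · intro j x
    exact (Ψ.symm_apply_eq).2 (hΨ j x).symm
  · intro a y
    obtain ⟨z, rfl⟩ := Ψ.surjective y
    change Ψ.symm _ = (diagRep v p).hom a (Ψ.symm (Ψ z))
    rw [Ψ.symm_apply_apply]
    refine (Ψ.symm_apply_eq).2 ?_
    rfl
  · intro e j x i
    change (Ψ (e (Ψ.symm (lp.single p j x)))) i = _
    have h1 : Ψ.symm (lp.single p j x) = toZ r N p j x := (Ψ.symm_apply_eq).2 (hΨ j x).symm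
    rw [h1]
    rfl

end Pool.Agent.H13.BDFP
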