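import Mathlib
import Pool.Agent.H33.BDFP.Stmts

attribute [local instance] Pool.Agent.H33.BDFP.NV.instNACG Pool.Agent.H33.BDFP.NV.instModule
  Pool.Agent.H33.BDFP.NV.instNormedSpace Pool.Agent.H33.BDFP.NV.instFD
  Pool.Agent.H33.BDFP.NV.instComplete

/-!
Module T of project BDFP: transposition.
-/

open scoped ENNReal NNReal

noncomputable section

namespace Pool.Agent.H13.BDFP

open Pool.Agent.H33.BDFP

/-! ### Dual pairs -/

/-- a reflexive dual pair of Banach spaces -/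
structure DPair (X X' : Type) [NormedAddCommGroup X] [NormedSpace ℂ X]
    [NormedAddCommGroup X'] [NormedSpace ℂ X'] where
  β : X →L[ℂ] X' →L[ℂ] ℂ
  bijL : Function.Bijective β.flip
  bijR : Function.Bijective β

namespace DPair

section Basic

variable {X X' Y Y' Z Z' : Type}
  [NormedAddCommGroup X] [NormedSpace ℂ X] [CompleteSpace X]
  [NormedAddCommGroup X'] [NormedSpace ℂ X'] [CompleteSpace X']
  [NormedAddCommGroup Y] [NormedSpace ℂ Y] [CompleteSpace Y]
  [NormedAddCommGroup Y'] [NormedSpace ℂ Y'] [CompleteSpace Y']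
  [NormedAddCommGroup Z] [NormedSpace ℂ Z] [CompleteSpace Z]
  [NormedAddCommGroup Z'] [NormedSpace ℂ Z'] [CompleteSpace Z']

/-- exchange the two sides -/
def flip (P : DPair X X') : DPair X' X where
  β := P.β.flip
  bijL := by rw [ContinuousLinearMap.flip_flip]; exact P.bijR
  bijR := P.bijL

@[simp] lemma flip_β (P : DPair X X') (x : X) (x' : X') : P.flip.β x' x = P.β x x' := rfl

/-- `X'` is the dual of `X` -/
def eqv (P : DPair X X') : X' ≃L[ℂ] (X →L[ℂ] ℂ) :=
  ContinuousLinearEquiv.ofBijective P.β.flip (LinearMap.ker_eq_bot.2 P.bijL.1)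
    (LinearMap.range_eq_top.2 P.bijL.2)

lemma eqv_apply (P : DPair X X') (x : X) (x' : X') : P.eqv x' x = P.β x x' := by
  unfold eqv
  rfl

lemma ext (P : DPair X X') {x' y' : X'} (h : ∀ x, P.β x x' = P.β x y') : x' = y' := by
  apply P.bijL.1
  ext x
  exact h x

/-- the transpose -/
def tr (P : DPair X X') (Q : DPair Y Y') (T : X →L[ℂ] Y) : Y' →L[ℂ] X' :=
  (P.eqv.symm : (X →L[ℂ] ℂ) →L[ℂ] X') ∘L
    (((ContinuousLinearMap.compL ℂ X Y ℂ).flip T) ∘L (Q.eqv : Y' →L[ℂ] (Y →L[ℂ] ℂ)))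

lemma tr_spec (P : DPair X X') (Q : DPair Y Y') (T : X →L[ℂ] Y) (x : X) (y' : Y') :
    P.β x (P.tr Q T y') = Q.β (T x) y' := by
  rw [← P.eqv_apply, ← Q.eqv_apply]
  have : P.eqv (P.tr Q T y') = (ContinuousLinearMap.compL ℂ X Y ℂ).flip T (Q.eqv y') := by
    unfold tr
    simp
  rw [this]
  rfl

lemma tr_unique (P : DPair X X') (Q : DPair Y Y') (T : X →L[ℂ] Y) (S : Y' →L[ℂ] X')
    (h : ∀ x y', P.β x (S y') = Q.β (T x) y') : S = P.tr Q T := by
  ext y'
  apply P.ext
  intro x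
  rw [h, tr_spec]

lemma tr_bound (P : DPair X X') (Q : DPair Y Y') :
    ∃ K : ℝ, 0 ≤ K ∧ ∀ T : X →L[ℂ] Y, ‖P.tr Q T‖ ≤ K * ‖T‖ := by
  refine ⟨‖(P.eqv.symm : (X →L[ℂ] ℂ) →L[ℂ] X')‖ * (‖(ContinuousLinearMap.compL ℂ X Y ℂ).flip‖ *
    ‖(Q.eqv : Y' →L[ℂ] (Y →L[ℂ] ℂ))‖), by positivity, fun T => ?_⟩
  unfold tr
  refine (ContinuousLinearMap.opNorm_comp_le _ _).trans ?_
  rw [mul_assoc]
  refine mul_le_mul_of_nonneg_left ?_ (norm_nonneg _)
  refine (ContinuousLinearMap.opNorm_comp_le _ _).trans ?_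
  rw [mul_right_comm]
  exact mul_le_mul_of_nonneg_right (ContinuousLinearMap.le_opNorm _ _) (norm_nonneg _)

lemma tr_comp (P : DPair X X') (Q : DPair Y Y') (R : DPair Z Z') (S : Y →L[ℂ] Z)
    (T : X →L[ℂ] Y) : P.tr R (S ∘L T) = P.tr Q T ∘L Q.tr R S := by
  symm
  apply tr_unique
  intro x y'
  simp only [ContinuousLinearMap.comp_apply]
  rw [tr_spec, tr_spec]

lemma tr_id (P : DPair X X') :
    P.tr P (ContinuousLinearMap.id ℂ X) = ContinuousLinearMap.id ℂ X' := by
  symm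
  apply tr_unique
  intro x y'
  rfl

lemma tr_add (P : DPair X X') (Q : DPair Y Y') (S T : X →L[ℂ] Y) :
    P.tr Q (S + T) = P.tr Q S + P.tr Q T := by
  symm
  apply tr_unique
  intro x y'
  simp [tr_spec]

lemma tr_sub (P : DPair X X') (Q : DPair Y Y') (S T : X →L[ℂ] Y) :
    P.tr Q (S - T) = P.tr Q S - P.tr Q T := by
  symm
  apply tr_unique
  intro x y'
  simp [tr_spec]

lemma tr_smul (P : DPair X X') (Q : DPair Y Y') (c : ℂ) (T : X →L[ℂ] Y) :
    P.tr Q (c • T) = c • P.tr Q T := by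
  symm
  apply tr_unique
  intro x y'
  simp [tr_spec]

lemma tr_zero (P : DPair X X') (Q : DPair Y Y') : P.tr Q (0 : X →L[ℂ] Y) = 0 := by
  symm
  apply tr_unique
  intro x y'
  simp

lemma tr_tr (P : DPair X X') (Q : DPair Y Y') (T : X →L[ℂ] Y) :
    Q.flip.tr P.flip (P.tr Q T) = T := by
  symm
  apply tr_unique
  intro x y'
  simp [tr_spec]

/-- the transpose of a compact operator is compact -/
lemma tr_compact (P : DPair X X') (Q : DPair Y Y') (hY : AP Y) (T : X →L[ℂ] Y)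
    (hT : IsCompactOperator (⇑T)) : IsCompactOperator (⇑(P.tr Q T)) := by
  obtain ⟨K, hK, hb⟩ := P.tr_bound Q
  have h : ∀ n : ℕ, ∃ F : X →L[ℂ] Y, FiniteDimensional ℂ (LinearMap.range F.toLinearMap) ∧
      ‖T - F‖ ≤ 1 / ((n : ℝ) + 1) := fun n => hY X T hT _ (by positivity)
  choose F hF hTF using h
  have hFc : ∀ n, IsCompactOperator (⇑(P.tr Q (F n))) := by
    intro n
    have := hF n
    set W := LinearMap.range (F n).toLinearMap
    let R : X →L[ℂ] W := (F n).codRestrict W (fun x => ⟨x, rfl⟩)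
    have hfac : (ContinuousLinearMap.compL ℂ X Y ℂ).flip (F n) =
        ((ContinuousLinearMap.compL ℂ X W ℂ).flip R) ∘L
          ((ContinuousLinearMap.compL ℂ W Y ℂ).flip W.subtypeL) := by
      ext φ x
      rfl
    have hprop : ProperSpace (W →L[ℂ] ℂ) := FiniteDimensional.proper ℂ (W →L[ℂ] ℂ)
    have hid : IsCompactOperator (⇑((ContinuousLinearMap.compL ℂ W Y ℂ).flip W.subtypeL)) :=
      isCompactOperator_of_locallyCompactSpace_dom
        ((ContinuousLinearMap.compL ℂ W Y ℂ).flip W.subtypeL)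
    have h1 : IsCompactOperator (⇑((ContinuousLinearMap.compL ℂ X Y ℂ).flip (F n))) := by
      rw [hfac]
      exact hid.clm_comp ((ContinuousLinearMap.compL ℂ X W ℂ).flip R)
    exact (h1.comp_clm (Q.eqv : Y' →L[ℂ] (Y →L[ℂ] ℂ))).clm_comp
      (P.eqv.symm : (X →L[ℂ] ℂ) →L[ℂ] X')
  refine isCompactOperator_of_tendsto (F := fun n => P.tr Q (F n)) (l := Filter.atTop) ?_
    (Filter.Eventually.of_forall hFc)
  rw [tendsto_iff_norm_sub_tendsto_zero]
  have h0 : Filter.Tendsto (fun n : ℕ => K * (1 / ((n : ℝ) + 1))) Filter.atTop (nhds 0) := by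
    have := (tendsto_one_div_add_atTop_nhds_zero_nat (𝕜 := ℝ)).const_mul K
    simpa using this
  refine squeeze_zero (fun n => norm_nonneg _) (fun n => ?_) h0
  rw [norm_sub_rev, ← tr_sub]
  exact (hb _).trans (mul_le_mul_of_nonneg_left (hTF n) hK)

lemma tr_eqK (P : DPair X X') (Q : DPair Y Y') (hY : AP Y) {S T : X →L[ℂ] Y}
    (h : EqK S T) : EqK (P.tr Q S) (P.tr Q T) := by
  unfold EqK at h ⊢
  rw [← tr_sub]
  exact P.tr_compact Q hY _ h

/-- product of dual pairs -/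
def prod (P : DPair X X') (Q : DPair Y Y') : DPair (X × Y) (X' × Y') where
  β := ((ContinuousLinearMap.compL ℂ (X' × Y') X' ℂ).flip (ContinuousLinearMap.fst ℂ X' Y')) ∘L
        P.β ∘L ContinuousLinearMap.fst ℂ X Y +
      ((ContinuousLinearMap.compL ℂ (X' × Y') Y' ℂ).flip (ContinuousLinearMap.snd ℂ X' Y')) ∘L
        Q.β ∘L ContinuousLinearMap.snd ℂ X Y
  bijL := by
    constructor
    · intro a b hab
      have h : ∀ x y, P.β x a.1 + Q.β y a.2 = P.β x b.1 + Q.β y b.2 := fun x y =>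
        DFunLike.congr_fun hab (x, y)
      refine Prod.ext (P.ext fun x => ?_) (Q.ext fun y => ?_)
      · simpa using h x 0
      · simpa using h 0 y
    · intro φ
      obtain ⟨a, ha⟩ := P.bijL.2 (φ ∘L ContinuousLinearMap.inl ℂ X Y)
      obtain ⟨b, hb⟩ := Q.bijL.2 (φ ∘L ContinuousLinearMap.inr ℂ X Y)
      refine ⟨(a, b), ?_⟩
      ext x
      · have h1 : P.β x a = φ (x, 0) := DFunLike.congr_fun ha x
        change P.β x a + Q.β 0 b = φ (x, 0)
        rw [h1]; simp
      · have h1 : Q.β x b = φ (0, x) := DFunLike.congr_fun hb x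
        change P.β 0 a + Q.β x b = φ (0, x)
        rw [h1]; simp
  bijR := by
    constructor
    · intro a b hab
      have h : ∀ x y, P.β a.1 x + Q.β a.2 y = P.β b.1 x + Q.β b.2 y := fun x y =>
        DFunLike.congr_fun hab (x, y)
      refine Prod.ext (P.flip.ext fun x => ?_) (Q.flip.ext fun y => ?_)
      · simpa using h x 0
      · simpa using h 0 y
    · intro φ
      obtain ⟨a, ha⟩ := P.bijR.2 (φ ∘L ContinuousLinearMap.inl ℂ X' Y')
      obtain ⟨b, hb⟩ := Q.bijR.2 (φ ∘L ContinuousLinearMap.inr ℂ X' Y')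
      refine ⟨(a, b), ?_⟩
      ext x
      · have h1 : P.β a x = φ (x, 0) := DFunLike.congr_fun ha x
        change P.β a x + Q.β b 0 = φ (x, 0)
        rw [h1]; simp
      · have h1 : Q.β b x = φ (0, x) := DFunLike.congr_fun hb x
        change P.β a 0 + Q.β b x = φ (0, x)
        rw [h1]; simp

lemma prod_β (P : DPair X X') (Q : DPair Y Y') (a : X × Y) (b : X' × Y') :
    (P.prod Q).β a b = P.β a.1 b.1 + Q.β a.2 b.2 := rfl

lemma tr_prodMap (P : DPair X X') (Q : DPair Y Y') (S : X →L[ℂ] X) (T : Y →L[ℂ] Y) :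
    (P.prod Q).tr (P.prod Q) (S.prodMap T) = (P.tr P S).prodMap (Q.tr Q T) := by
  symm
  apply tr_unique
  intro x y'
  change P.β x.1 (P.tr P S y'.1) + Q.β x.2 (Q.tr Q T y'.2) = P.β (S x.1) y'.1 + Q.β (T x.2) y'.2
  rw [tr_spec, tr_spec]

end Basic

end DPair

/-! ### The pair `(l^p, l^q)` -/

section Lp

variable (p q : ℝ≥0∞) [Fact (1 ≤ p)] [Fact (1 ≤ q)]

/-- the bilinear pairing of `l^p` and `l^q` -/
def pairing [p.HolderConjugate q] : LP p →L[ℂ] LP q →L[ℂ] ℂ :=
  lp.dualPairing p q (fun _ : ℕ => ContinuousLinearMap.mul ℂ ℂ) (K := 1)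
    (fun _ => by rw [NNReal.coe_one]; exact ContinuousLinearMap.opNorm_mul_le ℂ ℂ)

lemma pairing_apply [p.HolderConjugate q] (x : LP p) (y : LP q) :
    pairing p q x y = ∑' i, x i * y i := by
  unfold pairing
  rw [lp.dualPairing_apply]
  rfl

lemma pairing_comm [p.HolderConjugate q] [q.HolderConjugate p] (x : LP p) (y : LP q) :
    pairing p q x y = pairing q p y x := by
  rw [pairing_apply, pairing_apply]
  exact tsum_congr fun i => mul_comm _ _

lemma pairing_single [p.HolderConjugate q] (i : ℕ) (c : ℂ) (y : LP q) :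
    pairing p q (lp.single p i c) y = c * y i := by
  rw [pairing_apply, tsum_eq_single i]
  · have h := lp.single_apply_self (E := fun _ : ℕ => ℂ) p i c
    rw [h]
  · intro j hj
    have h := lp.single_apply_ne (E := fun _ : ℕ => ℂ) p i c hj
    rw [h, zero_mul]

lemma exists_rep_aux {P Q : ℝ} (hPQ : P.HolderConjugate Q) {S N L : ℝ} (hS : 0 ≤ S)
    (hN : 0 ≤ N) (hL : 0 ≤ L) (h1 : L ^ P = S) (h2 : S ≤ N * L) : S ≤ N ^ Q := by
  rcases hS.eq_or_lt with h0 | h0
  · rw [← h0]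
    exact Real.rpow_nonneg hN _
  · have hQ := hPQ.symm.pos
    have hP := hPQ.pos
    have e1 : L ^ Q = S ^ (Q - 1) := by
      rw [← h1, ← Real.rpow_mul hL]
      congr 1
      have := hPQ.sub_one_mul_conj
      have h3 := hPQ.symm.sub_one_mul_conj
      nlinarith
    have e2 : S ^ Q = S * S ^ (Q - 1) := by
      nth_rewrite 2 [← Real.rpow_one S]
      rw [← Real.rpow_add h0]
      congr 1
      ring
    have h3 : S ^ Q ≤ (N * L) ^ Q := Real.rpow_le_rpow hS h2 hQ.le
    rw [Real.mul_rpow hN hL, e1, e2] at h3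
    exact le_of_mul_le_mul_right h3 (Real.rpow_pos_of_pos h0 _)

/-- every functional on `l^p` is given by an element of `l^q` -/
lemma exists_rep (hp : 1 < p) (hq : 1 < q) (hpt : p ≠ ∞) (hqt : q ≠ ∞) [p.HolderConjugate q]
    (φ : LP p →L[ℂ] ℂ) : ∃ y : LP q, ∀ x, pairing p q x y = φ x := by
  classical
  set P := p.toReal with hP
  set Q := q.toReal with hQ
  have hP1 : 1 < P := by
    rw [hP, ← ENNReal.toReal_one]
    exact (ENNReal.toReal_lt_toReal ENNReal.one_ne_top hpt).2 hp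
  have hQ1 : 1 < Q := by
    rw [hQ, ← ENNReal.toReal_one]
    exact (ENNReal.toReal_lt_toReal ENNReal.one_ne_top hqt).2 hq
  have hPQ : P.HolderConjugate Q := ENNReal.HolderConjugate.toReal_of_ne_top hpt hqt
  let y : ℕ → ℂ := fun i => φ (lp.single p i (1 : ℂ))
  have hφ : ∀ (i : ℕ) (c : ℂ), φ (lp.single p i c) = c * y i := by
    intro i c
    have : (lp.single p i c : LP p) = c • lp.single p i (1 : ℂ) := by
      rw [← lp.single_smul, smul_eq_mul, mul_one]
    rw [this, map_smul, smul_eq_mul]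
  have hbound : ∀ s : Finset ℕ, ∑ i ∈ s, ‖y i‖ ^ Q ≤ ‖φ‖ ^ Q := by
    intro s
    let a : ℕ → ℂ := fun i => (starRingEnd ℂ) (y i) * ((‖y i‖ ^ (Q - 2) : ℝ) : ℂ)
    have ha1 : ∀ i, a i * y i = ((‖y i‖ ^ Q : ℝ) : ℂ) := by
      intro i
      rcases eq_or_ne (y i) 0 with h0 | h0
      · simp [a, h0, Real.zero_rpow hPQ.symm.ne_zero]
      · have hpos : 0 < ‖y i‖ := norm_pos_iff.2 h0
        have e1 : a i * y i = ((starRingEnd ℂ) (y i) * y i) * ((‖y i‖ ^ (Q - 2) : ℝ) : ℂ) := by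
          simp only [a]; ring
        rw [e1, Complex.conj_mul']
        have e2 : ‖y i‖ ^ Q = ‖y i‖ ^ 2 * ‖y i‖ ^ (Q - 2) := by
          rw [← Real.rpow_natCast, ← Real.rpow_add hpos]
          congr 1
          push_cast
          ring
        rw [e2]
        push_cast
        ring
    have ha2 : ∀ i, ‖a i‖ ^ P = ‖y i‖ ^ Q := by
      intro i
      rcases eq_or_ne (y i) 0 with h0 | h0
      · simp [a, h0, Real.zero_rpow hPQ.symm.ne_zero, Real.zero_rpow hPQ.ne_zero]
      · have hpos : 0 < ‖y i‖ := norm_pos_iff.2 h0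
        have e1 : ‖a i‖ = ‖y i‖ ^ (Q - 1) := by
          simp only [a, norm_mul, RCLike.norm_conj, Complex.norm_real, Real.norm_eq_abs]
          rw [abs_of_nonneg (Real.rpow_nonneg hpos.le _)]
          nth_rewrite 1 [← Real.rpow_one ‖y i‖]
          rw [← Real.rpow_add hpos]
          congr 1
          ring
        rw [e1, ← Real.rpow_mul hpos.le]
        congr 1
        exact hPQ.symm.sub_one_mul_conj
    let x : LP p := ∑ i ∈ s, lp.single p i (a i)
    have hx : ‖x‖ ^ P = ∑ i ∈ s, ‖y i‖ ^ Q := by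
      have := lp.norm_sum_single (E := fun _ : ℕ => ℂ) (p := p) hPQ.pos a s
      rw [this]
      exact Finset.sum_congr rfl fun i _ => ha2 i
    have hφx : φ x = ((∑ i ∈ s, ‖y i‖ ^ Q : ℝ) : ℂ) := by
      simp only [x, map_sum, hφ, ha1]
      push_cast
      rfl
    have hS : 0 ≤ ∑ i ∈ s, ‖y i‖ ^ Q :=
      Finset.sum_nonneg fun i _ => Real.rpow_nonneg (norm_nonneg _) _
    refine exists_rep_aux hPQ hS (norm_nonneg φ) (norm_nonneg x) hx ?_
    have h2 := φ.le_opNorm x
    rw [hφx, Complex.norm_real, Real.norm_of_nonneg hS] at h2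
    exact h2
  have hmem : Memℓp y q := memℓp_gen' (C := ‖φ‖ ^ Q) hbound
  refine ⟨⟨y, hmem⟩, fun x => ?_⟩
  have h1 := (lp.hasSum_single hpt x).mapL φ
  have h2 := (lp.hasSum_single hpt x).mapL ((pairing p q).flip ⟨y, hmem⟩)
  have e : (fun i => (pairing p q).flip ⟨y, hmem⟩ (lp.single p i (x i))) =
      fun i => φ (lp.single p i (x i)) := by
    funext i
    rw [hφ, ContinuousLinearMap.flip_apply, pairing_single]
  rw [e] at h2
  exact h2.unique h1

/-- the pair `(l^p, l^q)` -/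
def lpPair (hp : 1 < p) (hq : 1 < q) (hpt : p ≠ ∞) (hqt : q ≠ ∞) [p.HolderConjugate q] :
    DPair (LP p) (LP q) where
  β := pairing p q
  bijL := by
    constructor
    · intro y y' h
      refine lp.ext (funext fun i => ?_)
      have h1 : pairing p q (lp.single p i (1 : ℂ)) y = pairing p q (lp.single p i (1 : ℂ)) y' :=
        DFunLike.congr_fun h _
      rw [pairing_single, pairing_single, one_mul, one_mul] at h1
      exact h1
    · intro φ
      obtain ⟨y, hy⟩ := exists_rep p q hp hq hpt hqt φ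
      exact ⟨y, ContinuousLinearMap.ext fun x => hy x⟩
  bijR := by
    have : q.HolderConjugate p := ENNReal.HolderConjugate.symm
    constructor
    · intro y y' h
      refine lp.ext (funext fun i => ?_)
      have h1 : pairing p q y (lp.single q i (1 : ℂ)) = pairing p q y' (lp.single q i (1 : ℂ)) :=
        DFunLike.congr_fun h _
      rw [pairing_comm p q y, pairing_comm p q y', pairing_single, pairing_single, one_mul,
        one_mul] at h1
      exact h1
    · intro φ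
      obtain ⟨y, hy⟩ := exists_rep q p hq hp hqt hpt φ
      refine ⟨y, ContinuousLinearMap.ext fun x => ?_⟩
      rw [pairing_comm]
      exact hy x

end Lp

/-! ### The theorem -/

section Main

variable {M : Set ℂ} [CompactSpace M] {X X' Y Y' : Type}
  [NormedAddCommGroup X] [NormedSpace ℂ X] [CompleteSpace X]
  [NormedAddCommGroup X'] [NormedSpace ℂ X'] [CompleteSpace X']
  [NormedAddCommGroup Y] [NormedSpace ℂ Y] [CompleteSpace Y]
  [NormedAddCommGroup Y'] [NormedSpace ℂ Y'] [CompleteSpace Y']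

/-- the transposed representation -/
def trRep (P : DPair X X') (ρ : Rep M X) : Rep M X' where
  hom :=
    { toFun := fun a => P.tr P (ρ.hom a)
      map_add' := fun a b => by rw [map_add, DPair.tr_add]
      map_mul' := fun a b => by
        rw [mul_comm a b, map_mul]
        exact P.tr_comp P P _ _
      map_one' := by rw [map_one]; exact P.tr_id
      map_zero' := by rw [map_zero, DPair.tr_zero]
      commutes' := fun c => by
        rw [AlgHom.commutes, Algebra.algebraMap_eq_smul_one, Algebra.algebraMap_eq_smul_one,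
          DPair.tr_smul]
        congr 1
        exact P.tr_id }
  bdd := by
    obtain ⟨K, hK, h⟩ := P.tr_bound P
    obtain ⟨C, hC⟩ := ρ.bdd
    refine ⟨K * C, fun a => ?_⟩
    refine (h _).trans ?_
    rw [mul_assoc]
    exact mul_le_mul_of_nonneg_left (hC a) hK

lemma trRep_apply (P : DPair X X') (ρ : Rep M X) (a : C(M, ℂ)) :
    (trRep P ρ).hom a = P.tr P (ρ.hom a) := rfl

lemma eqk_rfl {A : X →L[ℂ] Y} : EqK A A := by
  unfold EqK
  rw [sub_self]
  exact isCompactOperator_zero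

lemma eqk_symm {A B : X →L[ℂ] Y} (h : EqK A B) : EqK B A := by
  unfold EqK at h ⊢
  rw [← neg_sub]
  exact h.neg

lemma eqk_trans {A B C : X →L[ℂ] Y} (h : EqK A B) (h' : EqK B C) : EqK A C := by
  unfold EqK at h h' ⊢
  have : A - C = (A - B) + (B - C) := by abel
  rw [this]
  exact h.add h'

lemma eqk_comp_left {A B : X →L[ℂ] Y} (S : Y →L[ℂ] Y') (h : EqK A B) :
    EqK (S ∘L A) (S ∘L B) := by
  unfold EqK at h ⊢
  rw [← ContinuousLinearMap.comp_sub]
  exact h.clm_comp S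

lemma eqk_comp_right {A B : X →L[ℂ] Y} (S : X' →L[ℂ] X) (h : EqK A B) :
    EqK (A ∘L S) (B ∘L S) := by
  unfold EqK at h ⊢
  rw [← ContinuousLinearMap.sub_comp]
  exact h.comp_clm S

/-- transposition of an equivalence of corners -/
lemma essEquiv_tr (P : DPair X X') (Q : DPair Y Y') (hX : AP X) (hX' : AP X') (hY' : AP Y')
    (ρ : Rep M X) (e : X →L[ℂ] X) (he : Corner ρ e) (σ : Rep M Y')
    (h : EssEquiv (trRep P ρ) (P.tr P e) σ (ContinuousLinearMap.id ℂ Y')) :
    EssEquiv ρ e (trRep Q.flip σ) (ContinuousLinearMap.id ℂ Y) := by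
  obtain ⟨A, B, h1, h2, _, _, h5⟩ := h
  have hB : EqK (P.tr P e ∘L B) B := by
    have a1 : EqK (B ∘L (A ∘L B)) (B ∘L ContinuousLinearMap.id ℂ Y') := eqk_comp_left B h2
    have a2 : EqK ((B ∘L A) ∘L B) (P.tr P e ∘L B) := eqk_comp_right B h1
    exact eqk_trans (eqk_symm a2) a1
  have hcor : ∀ a, EqK (P.tr P e ∘L (trRep P ρ).hom a) ((trRep P ρ).hom a ∘L P.tr P e) := by
    intro a
    have := P.tr_eqK P hX (he.2 a)
    rw [P.tr_comp P P, P.tr_comp P P] at this
    exact eqk_symm this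
  have hρ : ∀ a, EqK ((trRep P ρ).hom a ∘L B) (B ∘L σ.hom a) := by
    intro a
    have b1 : EqK ((B ∘L σ.hom a) ∘L (A ∘L B)) ((B ∘L σ.hom a) ∘L ContinuousLinearMap.id ℂ Y') :=
      eqk_comp_left _ h2
    have b2 : EqK (B ∘L ((A ∘L (trRep P ρ).hom a) ∘L B)) (B ∘L ((σ.hom a ∘L A) ∘L B)) :=
      eqk_comp_left B (eqk_comp_right B (h5 a))
    have b3 : EqK ((B ∘L A) ∘L ((trRep P ρ).hom a ∘L B)) (P.tr P e ∘L ((trRep P ρ).hom a ∘L B)) :=
      eqk_comp_right _ h1
    have b4 : EqK ((P.tr P e ∘L (trRep P ρ).hom a) ∘L B) (((trRep P ρ).hom a ∘L P.tr P e) ∘L B) :=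
      eqk_comp_right B (hcor a)
    have b5 : EqK ((trRep P ρ).hom a ∘L (P.tr P e ∘L B)) ((trRep P ρ).hom a ∘L B) :=
      eqk_comp_left _ hB
    exact eqk_trans (eqk_symm b5) (eqk_trans (eqk_symm b4) (eqk_trans (eqk_symm b3)
      (eqk_trans b2 b1)))
  have he' : P.flip.tr P.flip (P.tr P e) = e := P.tr_tr P e
  refine ⟨Q.flip.tr P.flip B, P.flip.tr Q.flip A, ?_, ?_, ?_, ?_, ?_⟩
  · have := P.flip.tr_eqK P.flip hX' h1
    rw [P.flip.tr_comp Q.flip P.flip, he'] at this
    exact this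
  · have := Q.flip.tr_eqK Q.flip hY' h2
    rw [Q.flip.tr_comp P.flip Q.flip, DPair.tr_id] at this
    exact this
  · have := Q.flip.tr_eqK P.flip hX' hB
    rw [Q.flip.tr_comp P.flip P.flip, he'] at this
    exact this
  · exact eqk_rfl
  · intro a
    have := Q.flip.tr_eqK P.flip hX' (hρ a)
    rw [Q.flip.tr_comp P.flip P.flip, Q.flip.tr_comp Q.flip P.flip, trRep_apply, P.tr_tr P] at this
    exact this

lemma indexZero_tr (P : DPair X X') (hX : AP X) {T : X →L[ℂ] X} (h : IndexZero T) :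
    IndexZero (P.tr P T) := by
  obtain ⟨U, hU⟩ := h
  refine ⟨⟨P.tr P U, P.tr P ((U⁻¹ : (X →L[ℂ] X)ˣ) : X →L[ℂ] X), ?_, ?_⟩, P.tr_eqK P hX hU⟩
  · have h1 := P.tr_comp P P ((U⁻¹ : (X →L[ℂ] X)ˣ) : X →L[ℂ] X) (U : X →L[ℂ] X)
    have h2 : ((U⁻¹ : (X →L[ℂ] X)ˣ) : X →L[ℂ] X) ∘L (U : X →L[ℂ] X) =
        ContinuousLinearMap.id ℂ X := U.inv_mul
    rw [h2, P.tr_id] at h1
    exact h1.symm
  · have h1 := P.tr_comp P P (U : X →L[ℂ] X) ((U⁻¹ : (X →L[ℂ] X)ˣ) : X →L[ℂ] X)
    have h2 : (U : X →L[ℂ] X) ∘L ((U⁻¹ : (X →L[ℂ] X)ˣ) : X →L[ℂ] X) =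
        ContinuousLinearMap.id ℂ X := U.mul_inv
    rw [h2, P.tr_id] at h1
    exact h1.symm

lemma cornerOp_tr (P : DPair X X') (ρ : Rep M X) (e : X →L[ℂ] X) (μ : ℂ) :
    P.tr P (cornerOp ρ e μ) = cornerOp (trRep P ρ) (P.tr P e) μ := by
  unfold cornerOp
  rw [P.tr_add P, P.tr_comp P P, P.tr_comp P P, P.tr_sub P, P.tr_sub P, P.tr_smul P, P.tr_id]
  rfl

lemma trRep_prod (P : DPair X X') (Q : DPair Y Y') (ρ : Rep M X) (σ : Rep M Y') :
    trRep (P.prod Q) (ρ.prod (trRep Q.flip σ)) = (trRep P ρ).prod σ := by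
  have : ∀ a, (trRep (P.prod Q) (ρ.prod (trRep Q.flip σ))).hom a = ((trRep P ρ).prod σ).hom a := by
    intro a
    rw [trRep_apply, Rep.prod_apply, Rep.prod_apply, DPair.tr_prodMap, trRep_apply, trRep_apply]
    congr 1
    exact Q.flip.tr_tr Q.flip (σ.hom a)
  cases h1 : trRep (P.prod Q) (ρ.prod (trRep Q.flip σ)) with
  | mk f hf =>
    cases h2 : (trRep P ρ).prod σ with
    | mk g hg =>
      have : f = g := by
        apply AlgHom.ext
        intro a
        have := this a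
        rw [h1, h2] at this
        exact this
      subst this
      rfl

end Main

theorem transposition (hAP : APStmt) : TStmt := by
  intro p q _ _ hp hq hpq hMC M _ hM ρ e he hidx
  have hpt : p ≠ ∞ := by
    rintro rfl
    rw [ENNReal.inv_top, zero_add] at hpq
    have : q = 1 := ENNReal.inv_eq_one.1 hpq
    exact hq.ne' this
  have hqt : q ≠ ∞ := by
    rintro rfl
    rw [ENNReal.inv_top, add_zero] at hpq
    have : p = 1 := ENNReal.inv_eq_one.1 hpq
    exact hp.ne' this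
  have hconj : p.HolderConjugate q := ENNReal.holderConjugate_iff.2 hpq
  have hconj' : q.HolderConjugate p := ENNReal.HolderConjugate.symm
  let P : DPair (LP p) (LP q) := lpPair p q hp hq hpt hqt
  have hX : AP (LP p) := hAP.1 p hpt (fun _ => ℂ)
  have hX' : AP (LP q) := hAP.1 q hqt (fun _ => ℂ)
  have he' : Corner (trRep P ρ) (P.tr P e) := by
    refine ⟨?_, fun a => ?_⟩
    · rw [← P.tr_comp P P, he.1]
    · have := P.tr_eqK P hX (he.2 a)
      rw [P.tr_comp P P, P.tr_comp P P] at this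
      exact eqk_symm this
  obtain ⟨σ₁, σ₂, h⟩ := hMC M hM (trRep P ρ) (P.tr P e) he' (fun μ hμ => by
    rw [← cornerOp_tr]
    exact indexZero_tr P hX (hidx μ hμ))
  refine ⟨trRep P.flip σ₁, trRep P.flip σ₂, ?_⟩
  have hXX : AP (LP p × LP p) := hAP.2.2 _ _ hX hX
  have hXX' : AP (LP q × LP q) := hAP.2.2 _ _ hX' hX'
  refine essEquiv_tr (P.prod P) P hXX hXX' hX' _ _ ?_ σ₂ ?_
  · refine ⟨?_, fun a => ?_⟩
    · refine ContinuousLinearMap.ext fun x => Prod.ext ?_ rfl
      exact DFunLike.congr_fun he.1 x.1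
    · have h1 := ((he.2 a).clm_comp (ContinuousLinearMap.inl ℂ (LP p) (LP p))).comp_clm
        (ContinuousLinearMap.fst ℂ (LP p) (LP p))
      have e1 : (e.prodMap (ContinuousLinearMap.id ℂ (LP p))) ∘L
            (ρ.prod (trRep P.flip σ₁)).hom a - (ρ.prod (trRep P.flip σ₁)).hom a ∘L
            (e.prodMap (ContinuousLinearMap.id ℂ (LP p))) =
          (ContinuousLinearMap.inl ℂ (LP p) (LP p) ∘L (e ∘L ρ.hom a - ρ.hom a ∘L e)) ∘L
            ContinuousLinearMap.fst ℂ (LP p) (LP p) := by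
        refine ContinuousLinearMap.ext fun x => Prod.ext rfl ?_
        change (trRep P.flip σ₁).hom a x.2 - (trRep P.flip σ₁).hom a x.2 = 0
        exact sub_self _
      unfold EqK
      rw [e1]
      exact h1
  · rw [trRep_prod, DPair.tr_prodMap, DPair.tr_id]
    exact h

end Pool.Agent.H13.BDFP
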